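import Mathlib
import Pool.Agent.X322.Ub4

/-!
# Longbranched unimodal maps: the critical omega-limit set never carries a minimal homeomorphism
-/

set_option autoImplicit false

namespace Pool.Agent.Results.MP_23b248_an.NoMinimalHomeo

open Set Function Filter

/-- `f` is unimodal with turning point `c` -/
structure IsUnimodal (f : unitInterval → unitInterval) (c : unitInterval) : Prop where
  cont : Continuous f
  pos : 0 < c
  lt_one : c < 1
  inc : StrictMonoOn f (Iic c)
  dec : StrictAntiOn f (Ici c)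

/-- the omega-limit set of `c` -/
def omegaSet (f : unitInterval → unitInterval) (c : unitInterval) : Set unitInterval :=
  {y | MapClusterPt y atTop (fun n : ℕ => f^[n] c)}

/-- the turning point is recurrent and not periodic -/
def InfinitelyRecurrent (f : unitInterval → unitInterval) (c : unitInterval) : Prop :=
  c ∈ omegaSet f c ∧ ∀ n, 1 ≤ n → f^[n] c ≠ c

/-- the kneading sequence (used for `n ≥ 1` only) -/
noncomputable def kneading (f : unitInterval → unitInterval) (c : unitInterval) (n : ℕ) : Bool :=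
  decide (c < f^[n] c)

/-- `S` is the sequence of cutting times of the symbol sequence `ν` -/
def IsCuttingTimes (ν : ℕ → Bool) (S : ℕ → ℕ) : Prop :=
  S 0 = 1 ∧ ∀ k, IsLeast {n | S k < n ∧ ν n ≠ ν (n - S k)} (S (k + 1))

/-- the kneading map `Q`, given by `S k - S (k - 1) = S (Q k)`, is bounded -/
def Longbranched (f : unitInterval → unitInterval) (c : unitInterval) : Prop :=
  ∃ S Q : ℕ → ℕ, IsCuttingTimes (kneading f c) S ∧
    (∀ k, 1 ≤ k → S k - S (k - 1) = S (Q k)) ∧ ∃ B, ∀ k, 1 ≤ k → Q k ≤ B

/-- `f` maps the omega-limit set of `c` bijectively onto itself and all forward orbits in it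
are dense in it -/
def MinimalHomeo (f : unitInterval → unitInterval) (c : unitInterval) : Prop :=
  BijOn f (omegaSet f c) (omegaSet f c) ∧
    ∀ y ∈ omegaSet f c, omegaSet f c ⊆ closure (range fun n : ℕ => f^[n] y)

/-- no homterval (an interval on which all iterates of `f` are injective) is bounded by two
points of the omega-limit set of `c` -/
def NoHomterval (f : unitInterval → unitInterval) (c : unitInterval) : Prop :=
  ∀ x ∈ omegaSet f c, ∀ y ∈ omegaSet f c, x < y → ∃ n : ℕ, ¬ InjOn (f^[n]) (Ioo x y)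

theorem omegaSet_eq (f : unitInterval → unitInterval) (c : unitInterval) :
    omegaSet f c = X322.Ub.om f c := by
  ext y
  constructor
  · intro h ε hε N
    have h1 := (mapClusterPt_iff_frequently.1 h) _ (Metric.ball_mem_nhds y hε)
    obtain ⟨n, hn, hy⟩ := (frequently_atTop.1 h1) N
    exact ⟨n, hn, hy⟩
  · intro h
    refine mapClusterPt_iff_frequently.2 fun s hs => ?_
    obtain ⟨ε, hε, hsub⟩ := Metric.mem_nhds_iff.1 hs
    refine frequently_atTop.2 fun N => ?_
    obtain ⟨n, hn, hd⟩ := h ε hε N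
    exact ⟨n, hn, hsub hd⟩

theorem result (f : unitInterval → unitInterval) (c : unitInterval) (hf : IsUnimodal f c)
    (hlong : Longbranched f c) (hrec : InfinitelyRecurrent f c) (hnh : NoHomterval f c) :
    ¬ MinimalHomeo f c := by
  rintro ⟨hbij, hmin⟩
  obtain ⟨S, Q, hS, hQ, B, hB⟩ := hlong
  obtain ⟨hc, hnp⟩ := hrec
  have hmin' : ∀ y ∈ omegaSet f c, ∀ ε : ℝ, 0 < ε → ∃ n, dist (f^[n] y) c < ε := by
    intro y hy ε hε
    obtain ⟨z, ⟨n, hn⟩, hd⟩ := Metric.mem_closure_iff.1 (hmin y hy hc) ε hε
    refine ⟨n, ?_⟩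
    rw [dist_comm]
    have hn' : f^[n] y = z := hn
    rw [hn']
    exact hd
  have hnh' : ∀ x ∈ omegaSet f c, ∀ y ∈ omegaSet f c, x < y →
      ∃ t, x < t ∧ t < y ∧ ∃ n, f^[n] t = c := by
    intro x hx y hy hxy
    obtain ⟨n, hn⟩ := hnh x hx y hy hxy
    by_contra hcon
    push Not at hcon
    exact hn (X322.Ub.inj_of_avoid hf.cont hf.inc hf.dec hcon n)
  rw [omegaSet_eq] at hc hbij hmin' hnh'
  exact X322.Ub.main hf.cont hf.inc hf.dec hnh' hc hnp hbij hmin' hS hQ hB

end Pool.Agent.Results.MP_23b248_an.NoMinimalHomeo
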